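import Pool.Agent.TH838.SK.Main

set_option autoImplicit false

/-!
# The Skolem Problem for polynomial expressions in generic recurrence sequences

Let `u_1, ..., u_s` be generic linear recurrence sequences, of any orders `d_1, ..., d_s`. For all
but a proportion `H ^ (-δ)` of the vectors of coefficients and initial values in any cube of side
`2 H + 1`, ALL the sequences `v_n = G(c, u_j(n + i))`, for all nonzero polynomials `G` of degree at
most `r` in each variable with integer coefficients of absolute value at most `H ^ δ`, have no zero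
term; if the coefficients of `G` have no common divisor there is a prime `p ≤ (log H) ^ A` which
divides no term `v_n` and modulo which `v` has period `p - 1`, and the algorithm `f` recognises `v`.

The sequences `v` are again linear recurrence sequences, of large order, whose characteristic roots
are the monomials of degree at most `r` in the roots of each of the generic recurrences: there are
many dominant roots, and many multiplicative relations between the roots.

Proof idea. Let `p ≡ 1` modulo `k = 2 (D r + 1)`, where `D = d_1 + ... + d_s`. For a positive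
proportion of the coefficient vectors modulo `p` all characteristic roots are distinct `k`-th powers
modulo `p`, and then all states have period `(p - 1) / k`. The state at each time `n` is a bijective
function of the initial values, hence lies on the hypersurface `G = 0` for a proportion at most
`D r / p` of them; so half of the initial values modulo `p` are good. The sieve of the starting
result `SmoothedAnalysis`, in a form uniform in the sets of residue classes, gives an exceptional
set of size `H ^ (-δ₀)` for each `G`, uniformly in `G`, and there are few `G` of small height.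
-/

namespace Pool.Agent.Results.MP_8d13b5_lc.AllSmallPolynomials

open Pool.Agent.H684R3.Smo Pool.Agent.H884R2.Sko Pool.Agent.H692R2.USS

/-- The value at `(x, y)` of the polynomial with the integer coefficients `w`, of degree at most
`r` in each variable: `∑ w_(e,e') x^e y^e'`. -/
def value {ι : Type} [Fintype ι] [DecidableEq ι] {r : ℕ}
    (w : (ι → Fin (r + 1)) × (ι → Fin (r + 1)) → ℤ) (x y : ι → ℤ) : ℤ :=
  ∑ e, w e * ((∏ i, x i ^ (e.1 i : ℕ)) * ∏ i, y i ^ (e.2 i : ℕ))

/-- The index set of the coefficients, and of the initial values, of recurrences of orders `d j`. -/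
abbrev Idx {s : ℕ} (d : Fin s → ℕ) : Type := (j : Fin s) × Fin (d j)

/-- `x` consists of the coefficients `c` and the initial values of sequences `u_1, ..., u_s` of
orders `d_1, ..., d_s`. For every nonzero polynomial `G` of degree at most `r` in each variable with
coefficients of absolute value at most `X`, the sequence `v_n = G(c, u_j(n + i))` has no zero; if
no prime divides all the coefficients of `G`, then some prime `p ≤ Y` divides no term of `v`, and
`v` has period `p - 1` modulo `p`, and the function `f` returns `true` on every input which codes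
`v` as a linear recurrence sequence. -/
def Easy (f : ℕ × (List (ℕ × ℕ) × List (ℕ × ℕ)) → Bool) {s : ℕ} (d : Fin s → ℕ) (r : ℕ) (X Y : ℝ)
    (x : Idx d ⊕ Idx d → ℤ) : Prop :=
  ∀ u : Fin s → ℕ → ℤ,
    (∀ j, IsSeq (fun i => x (Sum.inl ⟨j, i⟩)) (fun i => x (Sum.inr ⟨j, i⟩)) (u j)) →
    ∀ w : (Idx d → Fin (r + 1)) × (Idx d → Fin (r + 1)) → ℤ, w ≠ 0 → (∀ e, |(w e : ℝ)| ≤ X) →
    ∀ v : ℕ → ℤ, (∀ n, v n = value w (fun q => x (Sum.inl q)) (fun q => u q.1 (n + q.2))) →
      (∀ n, v n ≠ 0) ∧
      ((∀ q : ℕ, q.Prime → ∃ e, ¬ (q : ℤ) ∣ w e) →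
        (∃ p : ℕ, p.Prime ∧ (p : ℝ) ≤ Y ∧ ∀ n, ¬ (p : ℤ) ∣ v n ∧ (p : ℤ) ∣ v (n + (p - 1)) - v n) ∧
        ∀ z, IsLRS z v → f (⌊Y⌋₊, z) = true)

theorem result :
    -- one total computable function, which reads all linear recurrence sequences and never errs
    ∃ f : ℕ × (List (ℕ × ℕ) × List (ℕ × ℕ)) → Bool, Computable f ∧
      (∀ (y : ℕ) (z : List (ℕ × ℕ) × List (ℕ × ℕ)) (v : ℕ → ℤ), IsLRS z v → f (y, z) = true →
        ∀ n, v n ≠ 0) ∧
      -- all numbers of sequences, all orders, all degrees
      ∀ (s r : ℕ) (d : Fin s → ℕ), ∃ A δ : ℝ, 0 < A ∧ 0 < δ ∧ ∃ H₀ : ℕ, ∀ H : ℕ, H₀ ≤ H →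
        ∀ b : Idx d ⊕ Idx d → ℤ,
          (Nat.card {x : Idx d ⊕ Idx d → ℤ // (∀ i, |x i - b i| ≤ (H : ℤ)) ∧
            ¬ Easy f d r ((H : ℝ) ^ δ) (Real.log H ^ A) x} : ℝ) ≤
            (H : ℝ) ^ (-δ) * (2 * H + 1 : ℝ) ^ (2 * ∑ j, d j) := by
  obtain ⟨f, hf, hfe⟩ := t10
  refine ⟨f, hf, fun y z v hv ht n hn => ?_, fun s r d => ?_⟩
  · obtain ⟨q, _, _, hq⟩ := (hfe y z v hv).1 ht
    apply hq n
    rw [hn]
    exact dvd_zero _
  · obtain ⟨A, δ, hA, hδ, H₀, h⟩ := Pool.Agent.TH838.SK.main s r d
    refine ⟨A, δ, hA, hδ, H₀, fun H hH b => ?_⟩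
    have h1 := h H hH b
    have hcard : Fintype.card (Idx d ⊕ Idx d) = 2 * ∑ j, d j := by
      rw [Fintype.card_sum, Fintype.card_sigma]
      simp only [Fintype.card_fin]
      ring
    rw [mul_comm, ← hcard]
    refine le_trans ?_ h1
    have hmem : ∀ x : Idx d ⊕ Idx d → ℤ, (∀ i, |x i - b i| ≤ (H : ℤ)) → x ∈ bx b H := by
      intro x hx
      unfold bx
      rw [Fintype.mem_piFinset]
      intro i
      rw [Finset.mem_Icc]
      have := abs_le.1 (hx i)
      constructor <;> linarith [this.1, this.2]
    have heasy : ∀ x : Idx d ⊕ Idx d → ℤ,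
        Pool.Agent.TH838.SK.Easy d r ((H : ℝ) ^ δ) (Real.log H ^ A) x →
        Easy f d r ((H : ℝ) ^ δ) (Real.log H ^ A) x := by
      intro x hx u hu w hw hwX v hv
      obtain ⟨h2, h3⟩ := hx u hu w hw hwX
      have hv' : v = Pool.Agent.TH838.SK.val w (fun q => x (Sum.inl q)) u := by
        funext n
        exact hv n
      rw [hv']
      refine ⟨h2, fun hprim => ⟨h3 hprim, fun z hz => ?_⟩⟩
      obtain ⟨p, hp, hpY, hpv⟩ := h3 hprim
      rw [hfe _ _ _ hz]
      exact ⟨p, Nat.le_floor hpY, hp, fun n => (hpv n).1⟩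
    have hfin := finite_sub b H
      (fun x => ¬ Pool.Agent.TH838.SK.Easy d r ((H : ℝ) ^ δ) (Real.log H ^ A) x)
    have hle := Nat.card_le_card_of_injective
      (fun x : {x : Idx d ⊕ Idx d → ℤ // (∀ i, |x i - b i| ≤ (H : ℤ)) ∧
          ¬ Easy f d r ((H : ℝ) ^ δ) (Real.log H ^ A) x} =>
        (⟨x.1, hmem x.1 x.2.1, fun h => x.2.2 (heasy x.1 h)⟩ :
          {x : Idx d ⊕ Idx d → ℤ // x ∈ bx b H ∧
            ¬ Pool.Agent.TH838.SK.Easy d r ((H : ℝ) ^ δ) (Real.log H ^ A) x}))
      (fun x y hxy => Subtype.ext (congrArg (fun z => z.1) hxy))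
    exact_mod_cast hle

end Pool.Agent.Results.MP_8d13b5_lc.AllSmallPolynomials
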