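import Pool.Agent.TH717.SK.Dec
import Pool.Agent.TH717.ST.Sgn
import Pool.Agent.TH717.ST.MainM
import Pool.Agent.TH997.SP.Cons

set_option autoImplicit false

/-!
# The Skolem Problem for each fixed recurrence

Let `u_{n+d} = c_1 u_{n+d-1} + ... + c_d u_n` be a fixed recurrence, `c_d ≠ 0`; there is no
restriction on the order, on multiple roots or on the quotients of roots. There is a constant `B`
such that all isolated zeros `n` of all its integer sequences satisfy
`n ≤ B (1 + |a_1| + ... + |a_d|)`, where `a` are the initial values, and even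
`n ≤ B (1 + log (1 + |a_1| + ... + |a_d|))` if the characteristic polynomial is squarefree. So the
Skolem Problem in the initial values is decidable. In the squarefree case also the signs of all
terms with larger index are recurrent.

Proof idea. Let `X_t = (u_n, ..., u_{n+d-1})` be the state vectors at counterexamples `(a, n)`, and
`V` the smallest rational subspace containing them frequently. Up to a bounded factor they lie in
the lattices `B_n ℤ^d`, where `B_n` is a bounded multiple of the `n`-th power of the semisimple part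
of the companion matrix. The conjugate forms have minors on `V`; if the product of the roots
belonging to one nonzero minor is too small in comparison with the covolume of `V ∩ B_n ℤ^d`, the
subspace theorem (library `Pool.Agent.TH286.GT`, in the form `SubT` for these lattices) gives a
smaller subspace. Otherwise all the products belonging to nonzero minors differ by roots of unity
only, and all possible exchanges of rows take place between roots whose quotient is a root of unity;
then the contributions of the classes of roots vanish one by one. Then, at an index `n` which is not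
isolated or larger than `B (1 + |a_1| + ... + |a_d|)`, a congruence modulo the distance from `n` to
the first terms of its residue class shows that all these terms vanish.
-/

namespace Pool.Agent.Results.MP_8d13b5_lc.FixedRecurrences

open Polynomial
open Pool.Agent.H692R2.USS hiding IsLRS
open Pool.Agent.TH997.US Pool.Agent.TH997.SP Pool.Agent.TH717.SK Pool.Agent.H884R2.Sko
open Pool.Agent.Helper446.RE (cp_eq cp_le cp_lt cp_comp cite)
open scoped Classical

/-- `u` is the integer linear recurrence sequence given by the data `p = (c, a)`: the list `c` of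
coefficients `c_1, ..., c_d`, where `d ≥ 1` and `c_d ≠ 0`, and the list `a` of the `d` initial
values. -/
def IsLRS (p : List ℤ × List ℤ) (u : ℕ → ℤ) : Prop :=
  p.1.length = p.2.length ∧ 1 ≤ p.1.length ∧ p.1.getD (p.1.length - 1) 0 ≠ 0 ∧
    (∀ i, i < p.1.length → u i = p.2.getD i 0) ∧
    ∀ n : ℕ, u (n + p.1.length) =
      ∑ j ∈ Finset.range p.1.length, p.1.getD j 0 * u (n + p.1.length - 1 - j)

/-- `n` is an isolated zero of `u`: it lies in no infinite arithmetic progression of zeros. -/
def Isolated (u : ℕ → ℤ) (n : ℕ) : Prop := u n = 0 ∧ ∀ b, 0 < b → ∃ l, u (n + b * l) ≠ 0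

/-- the sum of the absolute values of the entries -/
def size (a : List ℤ) : ℕ := (a.map Int.natAbs).sum

/-- the characteristic polynomial `X^d - c_1 X^(d-1) - ... - c_d` -/
noncomputable def chp (c : List ℤ) : ℤ[X] :=
  X ^ c.length - ∑ j ∈ Finset.range c.length, C (c.getD j 0) * X ^ (c.length - 1 - j)

theorem isLRS_iff (p : List ℤ × List ℤ) (u : ℕ → ℤ) :
    IsLRS p u ↔ Val (cv p) ∧ u = sq (cv p) := by
  constructor
  · rintro ⟨h1, h2, h3, h4, h5⟩
    have hv : Val (cv p) := (val_cv p).2 ⟨h1, h2, h3⟩
    exact ⟨hv, funext ((rec_iff hv u).1 ⟨h4, h5⟩)⟩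
  · rintro ⟨hv, rfl⟩
    obtain ⟨h1, h2, h3⟩ := (val_cv p).1 hv
    obtain ⟨h4, h5⟩ := (rec_iff hv (sq (cv p))).2 fun _ => rfl
    exact ⟨h1, h2, h3, h4, h5⟩

theorem spor_iff' {p : List ℤ × List ℤ} {u : ℕ → ℤ} (hu : IsLRS p u) (n : ℕ) :
    Spor (cv p) n ↔ Isolated u n := by
  obtain ⟨hv, rfl⟩ := (isLRS_iff p u).1 hu
  exact spor_iff hv n

theorem chp_eq (c : List ℤ) : chp c = charPoly (fun i : Fin c.length => c.getD i 0) := by
  unfold chp charPoly
  rw [Finset.sum_range]

theorem isSeq_of {c a : List ℤ} {u : ℕ → ℤ} (hu : IsLRS (c, a) u) :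
    IsSeq (fun i : Fin c.length => c.getD i 0) (fun i : Fin c.length => a.getD i 0) u := by
  refine ⟨fun i => hu.2.2.2.1 i i.2, fun n => ?_⟩
  have := hu.2.2.2.2 n
  simp only at this
  rw [this, Finset.sum_range]

theorem norm_le_size {d : ℕ} (a : List ℤ) : ‖(fun i : Fin d => a.getD i 0)‖ ≤ size a := by
  rw [pi_norm_le_iff_of_nonneg (Nat.cast_nonneg _)]
  intro i
  rw [Int.norm_eq_abs]
  by_cases hi : (i : ℕ) < a.length
  · have h1 : a.getD i 0 = a[(i : ℕ)] := by
      rw [List.getD_eq_getElem?_getD, List.getElem?_eq_getElem hi]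
      rfl
    rw [h1]
    have h2 : (a[(i : ℕ)]).natAbs ≤ size a := by
      unfold size
      exact List.single_le_sum (fun _ _ => Nat.zero_le _) _
        (List.mem_map_of_mem (List.getElem_mem hi))
    have h3 : |(a[(i : ℕ)] : ℤ)| ≤ ((size a : ℕ) : ℤ) := by
      rw [Int.abs_eq_natAbs]
      exact_mod_cast h2
    exact_mod_cast h3
  · have h1 : a.getD i 0 = 0 := by
      rw [List.getD_eq_getElem?_getD, List.getElem?_eq_none (by omega)]
      rfl
    rw [h1]
    simp

/-- the signs of the terms with large indices, squarefree case -/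
theorem signs (c : List ℤ) (hc1 : 1 ≤ c.length)
    (hs : Squarefree ((chp c).map (Int.castRingHom ℚ))) :
    ∃ L : ℕ, 1 ≤ L ∧ ∃ B : ℕ, ∀ a u, IsLRS (c, a) u → ∀ n : ℕ,
      B * (1 + Real.log (1 + size a)) < n →
      (∀ m, u (n + L * m) = 0) ∨
        (0 < u n ∧ ∀ N, ∃ m, N ≤ m ∧ 0 < u (n + L * m)) ∨
        (u n < 0 ∧ ∀ N, ∃ m, N ≤ m ∧ u (n + L * m) < 0) := by
  rw [chp_eq] at hs
  obtain ⟨L, hL, B, hB, h⟩ := Pool.Agent.TH717.ST.signs0 _
    (charPoly_monic (fun i : Fin c.length => c.getD i 0))
    (by rw [charPoly_natDegree]; exact hc1) hs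
  obtain ⟨N, hN⟩ := exists_nat_ge B
  refine ⟨L, hL, N, fun a u hu n hn => ?_⟩
  have hA : (1 : ℝ) ≤ 1 + size a := by
    have : (0 : ℝ) ≤ size a := Nat.cast_nonneg _
    linarith
  have hlog : 0 ≤ Real.log (1 + size a) := Real.log_nonneg hA
  have hn' : B * (1 + Real.log (1 + size a)) < n := by
    refine lt_of_le_of_lt ?_ hn
    gcongr
  have hann := ann_of_isSeq (isSeq_of hu)
  have hb : ∀ k < (charPoly (fun i : Fin c.length => c.getD i 0)).natDegree,
      |(u k : ℝ)| ≤ 1 + size a := by
    rw [charPoly_natDegree]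
    intro k hk
    have h1 := norm_le_size (d := c.length) a
    have h2 := norm_le_pi_norm (fun i : Fin c.length => a.getD i 0) ⟨k, hk⟩
    rw [Int.norm_eq_abs] at h2
    have h3 : u k = a.getD k 0 := hu.2.2.2.1 k hk
    rw [h3]
    linarith
  have h1 := h u hann _ hA hb n hn'
  have hneg : Ann (charPoly (fun i : Fin c.length => c.getD i 0)) (fun n => -u n) := by
    unfold Ann at hann ⊢
    have h2 : (fun n => -u n) = -u := rfl
    rw [h2, map_neg, hann, neg_zero]
  have h2 := h (fun n => -u n) hneg _ hA (fun k hk => by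
    rw [Int.cast_neg, abs_neg]
    exact hb k hk) n hn'
  rcases h1 with h1 | ⟨h1, h1'⟩
  · exact Or.inl h1
  · rcases lt_or_gt_of_ne h1 with h3 | h3
    · exact Or.inr (Or.inr ⟨h3, h1' h3⟩)
    · right
      left
      refine ⟨h3, ?_⟩
      rcases h2 with h2 | ⟨_, h2⟩
      · have := h2 0
        rw [mul_zero, add_zero] at this
        omega
      · intro N
        obtain ⟨m, hm, h4⟩ := h2 (by omega) N
        exact ⟨m, hm, by omega⟩

/-- the bound for the isolated zeros -/
theorem isolated_bound (c : List ℤ) :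
    ∃ B : ℕ, ∀ a u, IsLRS (c, a) u → ∀ n, Isolated u n → n ≤ B * (1 + size a) ∧
      (Squarefree ((chp c).map (Int.castRingHom ℚ)) →
        (n : ℝ) ≤ B * (1 + Real.log (1 + size a))) := by
  by_cases hc1 : 1 ≤ c.length
  swap
  · exact ⟨0, fun a u hu => absurd hu.2.1 hc1⟩
  by_cases hc0 : c.getD (c.length - 1) 0 ≠ 0
  swap
  · exact ⟨0, fun a u hu => absurd hu.2.2.1 hc0⟩
  obtain ⟨L, hL, B, hB, h⟩ := Pool.Agent.TH717.ST.zerosM _
    (charPoly_monic (fun i : Fin c.length => c.getD i 0))
    (by rw [charPoly_natDegree]; exact hc1)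
    (by
      rw [charPoly_coeff_zero hc1]
      exact neg_ne_zero.2 hc0)
  have key1 : ∀ a u, IsLRS (c, a) u → ∀ n, Isolated u n → (n : ℝ) ≤ B * (1 + size a) := by
    intro a u hu n hn
    have hA : (1 : ℝ) ≤ 1 + size a := by
      have : (0 : ℝ) ≤ size a := Nat.cast_nonneg _
      linarith
    have hb : ∀ k < (charPoly (fun i : Fin c.length => c.getD i 0)).natDegree,
        |(u k : ℝ)| ≤ 1 + size a := by
      rw [charPoly_natDegree]
      intro k hk
      have h1 := norm_le_size (d := c.length) a
      have h2 := norm_le_pi_norm (fun i : Fin c.length => a.getD i 0) ⟨k, hk⟩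
      rw [Int.norm_eq_abs] at h2
      have h3 : u k = a.getD k 0 := hu.2.2.2.1 k hk
      rw [h3]
      linarith
    rcases h u (ann_of_isSeq (isSeq_of hu)) _ hA hb n hn.1 with h1 | h1
    · exact h1
    · exfalso
      obtain ⟨l, hl⟩ := hn.2 L (by omega)
      apply hl
      apply h1
      unfold Nat.ModEq
      simp
  obtain ⟨B1, hB1⟩ := exists_nat_ge B
  have key2 : ∃ B2 : ℕ, Squarefree ((chp c).map (Int.castRingHom ℚ)) →
      ∀ a u, IsLRS (c, a) u → ∀ n, Isolated u n →
        (n : ℝ) ≤ B2 * (1 + Real.log (1 + size a)) := by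
    by_cases hs : Squarefree ((chp c).map (Int.castRingHom ℚ))
    swap
    · exact ⟨0, fun h => absurd h hs⟩
    obtain ⟨L, hL, B, h⟩ := signs c hc1 hs
    refine ⟨B, fun _ a u hu n hn => ?_⟩
    by_contra hcon
    push Not at hcon
    rcases h a u hu n hcon with h1 | ⟨h1, _⟩ | ⟨h1, _⟩
    · obtain ⟨l, hl⟩ := hn.2 L (by omega)
      exact hl (h1 l)
    · have := hn.1
      omega
    · have := hn.1
      omega
  obtain ⟨B2, hB2⟩ := key2
  refine ⟨B1 + B2, fun a u hu n hn => ⟨?_, fun hs => ?_⟩⟩
  · have h1 := key1 a u hu n hn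
    have h2 : (n : ℝ) ≤ (B1 + B2) * (1 + size a) := by
      refine h1.trans (mul_le_mul_of_nonneg_right ?_ (by positivity))
      have : (0 : ℝ) ≤ B2 := Nat.cast_nonneg _
      linarith
    exact_mod_cast h2
  · have h1 := hB2 hs a u hu n hn
    have h3 : (0 : ℝ) ≤ size a := Nat.cast_nonneg _
    have h4 : 0 ≤ Real.log (1 + size a) := Real.log_nonneg (by linarith)
    refine h1.trans ?_
    push_cast
    apply mul_le_mul_of_nonneg_right _ (by linarith)
    have : (0 : ℝ) ≤ B1 := Nat.cast_nonneg _
    linarith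

/-- the signs of the terms with large indices, squarefree case -/
theorem signs' (c : List ℤ) (hs : Squarefree ((chp c).map (Int.castRingHom ℚ))) :
    ∃ L : ℕ, 1 ≤ L ∧ ∃ B : ℕ, ∀ a u, IsLRS (c, a) u → ∀ n : ℕ,
      B * (1 + Real.log (1 + size a)) < n →
      (∀ m, u (n + L * m) = 0) ∨
        (0 < u n ∧ ∀ N, ∃ m, N ≤ m ∧ 0 < u (n + L * m)) ∨
        (u n < 0 ∧ ∀ N, ∃ m, N ≤ m ∧ u (n + L * m) < 0) := by
  by_cases hc1 : 1 ≤ c.length
  · exact signs c hc1 hs
  · exact ⟨1, le_rfl, 0, fun a u hu => absurd hu.2.1 hc1⟩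

theorem computable_size : Computable size := by
  have h1 : Primrec (fun a : List ℤ => (a.map Int.natAbs).sum) := by
    have h2 : Primrec Int.natAbs := by
      refine (Primrec.nat_add.comp (Primrec.fst.comp primrec_zc)
        (Primrec.snd.comp primrec_zc)).of_eq fun z => ?_
      unfold zc
      simp only
      omega
    have h3 : Primrec (fun a : List ℤ => a.foldr (fun z s => z.natAbs + s) 0) :=
      Primrec.list_foldr Primrec.id (Primrec.const 0)
        (Primrec.nat_add.comp (h2.comp (Primrec.fst.comp Primrec.snd))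
          (Primrec.snd.comp Primrec.snd)).to₂
    refine h3.of_eq fun a => ?_
    induction a with
    | nil => rfl
    | cons z a ih => simp [ih]
  exact h1.to_comp

/-- the list of the isolated zeros below a computable bound -/
theorem exists_list' : ∃ A : (List ℤ × List ℤ) × ℕ → List ℕ, Computable A ∧
    ∀ p N n, n ∈ A (p, N) ↔ n < N * (1 + size p.2) ∧ Spor (cv p) n := by
  set P : ((List ℤ × List ℤ) × ℕ) → ℕ → Prop := fun p n => Spor (cv p.1) n with hP
  have hcP : ComputablePred (fun x : ((List ℤ × List ℤ) × ℕ) × ℕ => P x.1 x.2) :=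
    cp_comp cp_Spor (f := fun x : ((List ℤ × List ℤ) × ℕ) × ℕ => (cv x.1.1, x.2))
      ((computable_cv.comp (Computable.fst.comp Computable.fst)).pair Computable.snd)
  refine ⟨fun p => Nat.rec [] (fun n L => if P p n then n :: L else L)
    (p.2 * (1 + size p.1.2)), ?_, ?_⟩
  · refine Computable.nat_rec (f := fun p : (List ℤ × List ℤ) × ℕ => p.2 * (1 + size p.1.2))
      (g := fun _ => ([] : List ℕ))
      (h := fun (p : (List ℤ × List ℤ) × ℕ) (y : ℕ × List ℕ) =>
        if P p y.1 then y.1 :: y.2 else y.2) ?_ (Computable.const _) ?_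
    · have h1 : Computable fun p : (List ℤ × List ℤ) × ℕ => size p.1.2 :=
        computable_size.comp (Computable.snd.comp Computable.fst)
      fun_prop
    · refine cite (p := fun x : ((List ℤ × List ℤ) × ℕ) × (ℕ × List ℕ) => P x.1 x.2.1) ?_ ?_ ?_
      · exact cp_comp hcP
          (f := fun x : ((List ℤ × List ℤ) × ℕ) × (ℕ × List ℕ) => (x.1, x.2.1)) (by fun_prop)
      · exact Computable.list_cons.comp (Computable.fst.comp Computable.snd)
          (Computable.snd.comp Computable.snd)
      · exact Computable.snd.comp Computable.snd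
  · intro p N n
    have key : ∀ M : ℕ, n ∈ (Nat.rec [] (fun n L => if P (p, N) n then n :: L else L) M :
        List ℕ) ↔ n < M ∧ P (p, N) n := by
      intro M
      induction M with
      | zero => simp
      | succ M ih =>
        show n ∈ (if P (p, N) M then
          M :: (Nat.rec [] (fun n L => if P (p, N) n then n :: L else L) M : List ℕ)
          else (Nat.rec [] (fun n L => if P (p, N) n then n :: L else L) M : List ℕ)) ↔ _
        split_ifs with h
        · rw [List.mem_cons, ih]
          constructor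
          · rintro (rfl | ⟨h1, h2⟩)
            · exact ⟨Nat.lt_succ_self _, h⟩
            · exact ⟨by omega, h2⟩
          · rintro ⟨h1, h2⟩
            rcases Nat.lt_succ_iff_lt_or_eq.1 h1 with h3 | h3
            · exact Or.inr ⟨h3, h2⟩
            · exact Or.inl h3
        · rw [ih]
          constructor
          · rintro ⟨h1, h2⟩
            exact ⟨by omega, h2⟩
          · rintro ⟨h1, h2⟩
            rcases Nat.lt_succ_iff_lt_or_eq.1 h1 with h3 | h3
            · exact ⟨h3, h2⟩
            · rw [h3] at h2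
              exact absurd h2 h
    exact key _

theorem result :
    -- one algorithm, which reads any linear recurrence sequence and a number `N`, and lists
    -- isolated zeros of the sequence
    ∃ A : (List ℤ × List ℤ) × ℕ → List ℕ, Computable A ∧
      (∀ p u N, IsLRS p u → ∀ n ∈ A (p, N), Isolated u n) ∧
      -- for every recurrence, of any order
      ∀ c : List ℤ,
        -- the list is complete for all initial values, if `N` is large in terms of `c`
        (∃ N₀ : ℕ, ∀ N, N₀ ≤ N → ∀ a u, IsLRS (c, a) u → ∀ n,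
          n ∈ A ((c, a), N) ↔ Isolated u n) ∧
        -- because the isolated zeros are bounded in terms of the initial values
        (∃ B : ℕ, ∀ a u, IsLRS (c, a) u → ∀ n, Isolated u n → n ≤ B * (1 + size a) ∧
          (Squarefree ((chp c).map (Int.castRingHom ℚ)) →
            (n : ℝ) ≤ B * (1 + Real.log (1 + size a)))) ∧
        -- if there are no multiple roots then the signs of all later terms are recurrent
        (Squarefree ((chp c).map (Int.castRingHom ℚ)) → ∃ L : ℕ, 1 ≤ L ∧ ∃ B : ℕ, ∀ a u,
          IsLRS (c, a) u → ∀ n : ℕ, B * (1 + Real.log (1 + size a)) < n →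
            (∀ m, u (n + L * m) = 0) ∨
            (0 < u n ∧ ∀ N, ∃ m, N ≤ m ∧ 0 < u (n + L * m)) ∨
            (u n < 0 ∧ ∀ N, ∃ m, N ≤ m ∧ u (n + L * m) < 0)) ∧
        -- and so the Skolem Problem in the initial values is decidable
        ComputablePred (fun a : List ℤ => ∃ u, IsLRS (c, a) u ∧ ∃ n, u n = 0) := by
  obtain ⟨A, hA, h⟩ := exists_list'
  refine ⟨A, hA, fun p u N hu n hn => (spor_iff' hu n).1 ((h p N n).1 hn).2, ?_⟩
  intro c
  obtain ⟨B, hB⟩ := isolated_bound c
  have hlt : ∀ N, B + 1 ≤ N → ∀ a u, IsLRS (c, a) u → ∀ n, Isolated u n →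
      n < N * (1 + size a) := by
    intro N hN a u hu n hn
    have h1 := (hB a u hu n hn).1
    nlinarith [Nat.zero_le (size a)]
  refine ⟨⟨B + 1, fun N hN a u hu n => ?_⟩, ⟨B, hB⟩, signs' c, ?_⟩
  · rw [h]
    constructor
    · exact fun h1 => (spor_iff' hu n).1 h1.2
    · exact fun h1 => ⟨hlt N hN a u hu n h1, (spor_iff' hu n).2 h1⟩
  · have hcp : Computable fun a : List ℤ => cv (c, a) :=
      computable_cv.comp ((Computable.const c).pair Computable.id)
    have h1 : ComputablePred (fun a : List ℤ => Val (cv (c, a)) ∧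
        ((∃ n < (B + 1) * (1 + size a), Spor (cv (c, a)) n) ∨
          ∃ r < Tf (cv (c, a)), ¬ nz (cv (c, a)) r)) := by
      refine cp_and (cp_comp cp_val hcp) (cp_or ?_ ?_)
      · refine cp_ex (p := fun (a : List ℤ) n => Spor (cv (c, a)) n) ?_ ?_
        · exact cp_comp cp_Spor (f := fun x : List ℤ × ℕ => (cv (c, x.1), x.2))
            ((hcp.comp Computable.fst).pair Computable.snd)
        · have := computable_size
          fun_prop
      · refine cp_ex (p := fun (a : List ℤ) r => ¬ nz (cv (c, a)) r) ?_ (cTf.comp hcp)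
        exact ComputablePred.not (cp_comp cp_nz
          (f := fun x : List ℤ × ℕ => (cv (c, x.1), x.2))
          ((hcp.comp Computable.fst).pair Computable.snd))
    refine h1.of_eq fun a => ?_
    constructor
    · rintro ⟨hv, hn⟩
      refine ⟨_, (isLRS_iff _ _).2 ⟨hv, rfl⟩, ?_⟩
      rcases hn with ⟨n, _, h2⟩ | ⟨r, _, h2⟩
      · exact ⟨n, (iv_eq_zero _).2 h2.2.1⟩
      · exact ⟨_, zero_class hv h2 0⟩
    · rintro ⟨u, hu, n, hn⟩
      have hu' := hu
      obtain ⟨hv, rfl⟩ := (isLRS_iff _ _).1 hu
      refine ⟨hv, ?_⟩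
      by_cases hz : nz (cv (c, a)) (n % Tf (cv (c, a)))
      · have hS : Spor (cv (c, a)) n := ⟨hv, (iv_eq_zero _).1 hn, hz⟩
        exact Or.inl ⟨n, hlt _ le_rfl a _ hu' n ((spor_iff' hu' n).1 hS), hS⟩
      · exact Or.inr ⟨_, Nat.mod_lt _ (Tf_pos _), hz⟩

end Pool.Agent.Results.MP_8d13b5_lc.FixedRecurrences
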