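import Pool.Agent.TH997.SK.Fin
import Pool.Agent.TH997.SK.SUBS
import Pool.Agent.TH997.SK.PERB
import Pool.Agent.TH997.SK.ZI
import Pool.Agent.TH997.SK.SCLZ
import Pool.Agent.TH997.SK.CNTZ
import Pool.Agent.TH997.SK.CMPZ
import Pool.Agent.TH997.SK.ZF

/-!
# The Skolem Problem in the existential theory of the reals, up to a sparse set of indices

First part: if a rational linear recurrence of size `s` (any order, multiple roots allowed) has
more than `2 ^ (C s ^ C)` zeros then it has a zero with index below `2 ^ (C s ^ C)`. Choose a small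
odd prime not dividing the last nonzero coefficient; along a residue class modulo a period modulo
this prime a sequence which is not identically zero has few zeros (`p`-adic interpolation), and a
sequence which vanishes identically along a residue class has a zero at its beginning.

Second part: the set `L` of the indices `n ≥ 2 ^ (s ^ A)` of zeros of recurrences of size at most
`s` which have not too many zeros between `2 ^ (s ^ A)` and `n` is decidable and very sparse. A
zero with index outside `L` implies a zero with polynomially many binary digits, and such zeros are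
found by existential sentences over the reals (the exponential of the guessed index is computed by
repeated squaring from the characteristic roots and the coefficients of the exponential sum).
-/

set_option autoImplicit false

namespace Pool.Agent.Results.MP_8d13b5_lc.SkolemInETR

open Pool.Agent.NPC Pool.Agent.NPC.ER Pool.Agent.H612.LR Pool.Agent.TH997.UP Pool.Agent.TH997.SK
open scoped Classical

/-- The first part, for rational recurrences. -/
theorem few (hZ : ZI) (hS : SCLZ) : ∃ C : ℕ, ∀ l : Rec, l ≠ [] → ∀ N : ℕ,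
    2 ^ (C * Pool.Agent.H612.LR.sz l ^ C) <
      ((Finset.range N).filter (fun n => seq l n = 0)).card →
    ∃ n, n < 2 ^ (C * Pool.Agent.H612.LR.sz l ^ C) ∧ seq l n = 0 := by
  obtain ⟨C, hC⟩ := hZ
  refine ⟨C * 10 ^ C + 3 * C, fun l hl N hN => ?_⟩
  have hz := Pool.Agent.TH997.UP.Fin.sz_pos l hl
  obtain ⟨w, hw1, hw2, hw3⟩ := hS l hl
  have hwne : w ≠ [] := by
    rintro rfl
    simp at hw1
    exact hl (List.length_eq_zero_iff.1 hw1.symm)
  have hle : 2 ^ (C * isz w ^ C) ≤
      2 ^ ((C * 10 ^ C + 3 * C) * Pool.Agent.H612.LR.sz l ^ (C * 10 ^ C + 3 * C)) := by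
    refine Nat.pow_le_pow_right (by norm_num) ?_
    calc C * isz w ^ C ≤ C * (10 * Pool.Agent.H612.LR.sz l ^ 3) ^ C :=
          Nat.mul_le_mul le_rfl (Nat.pow_le_pow_left hw2 _)
      _ = C * 10 ^ C * Pool.Agent.H612.LR.sz l ^ (3 * C) := by rw [mul_pow, ← pow_mul]; ring
      _ ≤ (C * 10 ^ C + 3 * C) * Pool.Agent.H612.LR.sz l ^ (C * 10 ^ C + 3 * C) :=
          Nat.mul_le_mul (Nat.le_add_right _ _) (Nat.pow_le_pow_right hz (Nat.le_add_left _ _))
  have hcard : ((Finset.range N).filter (fun n => seq l n = 0)).card =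
      ((Finset.range N).filter (fun n => iseq w n = 0)).card := by
    congr 1
    exact Finset.filter_congr fun n _ => (hw3 n).symm
  obtain ⟨n, hn1, hn2⟩ := hC w hwne N (hcard ▸ lt_of_le_of_lt hle hN)
  exact ⟨n, lt_of_lt_of_le hn1 hle, (hw3 n).1 hn2⟩

theorem result :
    (∃ C : ℕ, ∀ l : Rec, l ≠ [] → ∀ N : ℕ,
      2 ^ (C * Pool.Agent.H612.LR.sz l ^ C) <
        ((Finset.range N).filter (fun n => seq l n = 0)).card →
      ∃ n, n < 2 ^ (C * Pool.Agent.H612.LR.sz l ^ C) ∧ seq l n = 0) ∧
    (∀ η : ℝ, 0 < η → ∃ (L : Set ℕ) (f : List Bool → Fm),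
      ComputablePred (fun n : ℕ => n ∈ L) ∧
      (∃ N0 : ℕ, ∀ N : ℕ, N0 ≤ N → ((L ∩ Set.Iio N).ncard : ℝ) ≤ Real.exp (Real.log N ^ η)) ∧
      PolyTime (fun w => bits (f w)) ∧
      (∀ l : Rec, l ≠ [] → ETR (f (bits l)) → ∃ n, seq l n = 0) ∧
      (∀ l : Rec, l ≠ [] → (∃ n, n ∉ L ∧ seq l n = 0) → ETR (f (bits l)))) := by
  have hZ : ZI := zi subs perb
  refine ⟨few hZ sclz, fun η hη => ?_⟩
  obtain ⟨L, f, h1, h2, h3, h4⟩ := main_str hZ sclz cntz cmpz zm zs zp η hη
  exact ⟨L, f, h1, h2, h3, fun l hl => (h4 l hl).1, fun l hl => (h4 l hl).2⟩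

end Pool.Agent.Results.MP_8d13b5_lc.SkolemInETR
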