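import Pool.Agent.TH997.SP.Cons

set_option autoImplicit false

/-!
# Universal Skolem sets whose complement is sparser than any computable bound

For every computable nondecreasing unbounded function `F` (which may grow as slowly as one wishes)
and every computable function `G₀` there is a computable `G ≥ G₀` such that the set `L` of all
numbers `n` which are an isolated zero of a linear recurrence sequence with data `p`, `G p ≤ n`
(the large zeros), is decidable and has at most `F N` elements below `N`, for every `N`; and for the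
complement `S` of `L` the Skolem Problem is decidable for all linear recurrence sequences: an
algorithm lists all isolated zeros in `S`, and an algorithm decides whether there is a zero in `S`.

Proof idea.  Modulo a prime `q ≥ 3` not dividing the last coefficient the sequence has the period
`T = (q ^ d)!`, the terms in a residue class modulo `T` are given by a `q`-adic analytic function,
and finite differences show: if a class contains `k` zeros then its terms are zero or at least
`3 ^ (k / 2)` in absolute value.  So a class whose first `d` terms are not all zero has a number of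
zeros bounded by these terms; the other classes vanish.  Hence the number of isolated zeros of the
first `j` recurrences is bounded by a computable function of `j`, and `G` is the inverse of `F` at
this bound.
-/

namespace Pool.Agent.Results.MP_8d13b5_lc.UniversalSkolemSets

open Pool.Agent.H692R2.USS Pool.Agent.TH997.US Pool.Agent.TH997.SP
open scoped Classical

/-- `u` is the integer linear recurrence sequence given by the data `p = (c, a)`: the list `c` of
coefficients `c_1, ..., c_d`, where `d ≥ 1` and `c_d ≠ 0`, and the list `a` of the `d` initial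
values. -/
def IsLRS (p : List ℤ × List ℤ) (u : ℕ → ℤ) : Prop :=
  p.1.length = p.2.length ∧ 1 ≤ p.1.length ∧ p.1.getD (p.1.length - 1) 0 ≠ 0 ∧
    (∀ i, i < p.1.length → u i = p.2.getD i 0) ∧
    ∀ n : ℕ, u (n + p.1.length) =
      ∑ j ∈ Finset.range p.1.length, p.1.getD j 0 * u (n + p.1.length - 1 - j)

/-- `n` is an isolated zero of `u`: it lies in no infinite arithmetic progression of zeros. -/
def Isolated (u : ℕ → ℤ) (n : ℕ) : Prop := u n = 0 ∧ ∀ b, 0 < b → ∃ l, u (n + b * l) ≠ 0

theorem isLRS_iff (p : List ℤ × List ℤ) (u : ℕ → ℤ) :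
    IsLRS p u ↔ Val (cv p) ∧ u = sq (cv p) := by
  constructor
  · rintro ⟨h1, h2, h3, h4, h5⟩
    have hv : Val (cv p) := (val_cv p).2 ⟨h1, h2, h3⟩
    exact ⟨hv, funext ((rec_iff hv u).1 ⟨h4, h5⟩)⟩
  · rintro ⟨hv, rfl⟩
    obtain ⟨h1, h2, h3⟩ := (val_cv p).1 hv
    obtain ⟨h4, h5⟩ := (rec_iff hv (sq (cv p))).2 fun _ => rfl
    exact ⟨h1, h2, h3, h4, h5⟩

theorem result
    -- a computable nondecreasing unbounded function, and a computable function
    (F : ℕ → ℕ) (hF : Computable F) (hmono : Monotone F)
    (hunb : Filter.Tendsto F Filter.atTop Filter.atTop)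
    (G₀ : List ℤ × List ℤ → ℕ) (hG₀ : Computable G₀) :
    ∃ G : List ℤ × List ℤ → ℕ, Computable G ∧ (∀ p, G₀ p ≤ G p) ∧
      -- the set `L` of the large isolated zeros of all linear recurrence sequences
      ∃ L : Set ℕ, (∀ n, n ∈ L ↔ ∃ p u, IsLRS p u ∧ G p ≤ n ∧ Isolated u n) ∧
        -- is decidable and has at most `F N` elements below `N`
        ComputablePred (fun n : ℕ => n ∈ L) ∧
        (∀ N : ℕ, ((Finset.range N).filter (fun n => n ∈ L)).card ≤ F N) ∧
        -- an algorithm computes all isolated zeros outside `L`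
        (∃ A : List ℤ × List ℤ → List ℕ, Computable A ∧
          ∀ p u, IsLRS p u → ∀ n, n ∈ A p ↔ n ∉ L ∧ Isolated u n) ∧
        -- and an algorithm decides whether there is a zero outside `L`
        ComputablePred (fun p : List ℤ × List ℤ => ∃ u, IsLRS p u ∧ ∃ n, n ∉ L ∧ u n = 0) := by
  set F' : ℕ → ℕ := fun N => min (F N) (Nat.log 2 N) with hF'
  have hcF : Computable F' := Primrec.nat_min.to_comp.comp hF clog0
  have hmF : Monotone F' := fun a b hab => min_le_min (hmono hab) (Nat.log_mono_right hab)
  have huF : ∀ B, ∃ N, B ≤ F' N := by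
    intro B
    obtain ⟨N, hN⟩ := (hunb.eventually (Filter.eventually_ge_atTop B)).exists
    refine ⟨max N (2 ^ B), le_min (hN.trans (hmono (le_max_left _ _))) ?_⟩
    have h1 : Nat.log 2 (2 ^ B) ≤ Nat.log 2 (max N (2 ^ B)) :=
      Nat.log_mono_right (le_max_right _ _)
    rwa [Nat.log_pow (by norm_num)] at h1
  set H : ℕ → ℕ := fun j => G₀ (Denumerable.ofNat (List ℤ × List ℤ) j) with hH
  have hcH : Computable H := hG₀.comp (Primrec.to_comp (Primrec.ofNat (List ℤ × List ℤ)))
  have hiso : ∀ p u, IsLRS p u → ∀ n, Spor (cv p) n ↔ Isolated u n := by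
    intro p u hu n
    obtain ⟨hv, rfl⟩ := (isLRS_iff p u).1 hu
    exact spor_iff hv n
  refine ⟨fun p => NN F' H (Encodable.encode p), (cNN hcF hcH hmF huF).comp Computable.encode,
    fun p => ?_, {n | RR F' H n}, fun n => ?_, cp_RR hcF hcH hmF huF, fun N => ?_, ?_, ?_⟩
  · refine le_trans ?_ ((le_max_right _ _).trans
      (NN_spec (H := H) hmF huF (Encodable.encode p)).1)
    simp only [hH, Denumerable.ofNat_encode]
    exact le_rfl
  · rw [Set.mem_ofPred_eq, RR_iff hmF huF]
    constructor
    · rintro ⟨p, h1, h2⟩
      have hu : IsLRS p (sq (cv p)) := (isLRS_iff _ _).2 ⟨h2.1, rfl⟩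
      exact ⟨p, _, hu, h1, (hiso p _ hu n).1 h2⟩
    · rintro ⟨p, u, hu, h1, h2⟩
      exact ⟨p, h1, (hiso p u hu n).2 h2⟩
  · exact (RR_card hmF huF N).trans (min_le_left _ _)
  · obtain ⟨A, hA, h⟩ := exists_list hcF hcH hmF huF
    refine ⟨A, hA, fun p u hu n => ?_⟩
    rw [h p n, hiso p u hu n]
    rfl
  · refine (cp_exists hcF hcH hmF huF fun N => min_le_right _ _).of_eq fun p => ?_
    constructor
    · rintro ⟨hv, n, h1, h2⟩
      exact ⟨_, (isLRS_iff _ _).2 ⟨hv, rfl⟩, n, h1, h2⟩
    · rintro ⟨u, hu, n, h1, h2⟩
      obtain ⟨hv, rfl⟩ := (isLRS_iff _ _).1 hu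
      exact ⟨hv, n, h1, h2⟩

end Pool.Agent.Results.MP_8d13b5_lc.UniversalSkolemSets
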